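import Pool.Agent.Helper99.GL.FSpec

/-!
Swarm `GL`, part F15: `S_COEF` from `S_TR3`.
-/

set_option autoImplicit false

open Metric Set Filter Topology

namespace Pool.GL.H74

/-- Taylor coefficient at `0` -/
noncomputable def tc (k : ℕ) (f : ℂ → ℂ) : ℂ := iteratedDeriv k f 0 / (k.factorial : ℂ)

theorem fac_ne (k : ℕ) : (k.factorial : ℂ) ≠ 0 := Nat.cast_ne_zero.mpr k.factorial_ne_zero

theorem tc_congr {k : ℕ} {f g : ℂ → ℂ} (h : ∀ᶠ z in 𝓝 (0 : ℂ), f z = g z) : tc k f = tc k g := by
  unfold tc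
  rw [Filter.EventuallyEq.iteratedDeriv_eq k h]

theorem tc_mul {k : ℕ} {f g : ℂ → ℂ} (hf : AnalyticAt ℂ f 0) (hg : AnalyticAt ℂ g 0) :
    tc k (fun z => f z * g z) = ∑ i ∈ Finset.range (k + 1), tc i f * tc (k - i) g := by
  unfold tc
  have := iteratedDeriv_fun_mul (n := k) (x := (0 : ℂ)) (f := f) (g := g)
    hf.contDiffAt hg.contDiffAt
  rw [this, Finset.sum_div]
  refine Finset.sum_congr rfl fun i hi => ?_
  have hik : i ≤ k := Nat.lt_succ_iff.mp (Finset.mem_range.mp hi)
  have h1 := Nat.choose_mul_factorial_mul_factorial hik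
  have h2 : ((k.choose i : ℂ)) * (i.factorial : ℂ) * ((k - i).factorial : ℂ) = k.factorial := by
    exact_mod_cast h1
  have hc : (k.choose i : ℂ) ≠ 0 := Nat.cast_ne_zero.mpr (Nat.choose_pos hik).ne'
  have hi' := fac_ne i
  have hki' := fac_ne (k - i)
  rw [← h2]
  field_simp

theorem tc_pow (k n : ℕ) : tc k (fun z => z ^ n) = if k = n then 1 else 0 := by
  unfold tc
  rw [iteratedDeriv_fun_pow_zero]
  split_ifs with h
  · subst h; exact div_self (fac_ne k)
  · simp

theorem tc_const_mul (k : ℕ) (c : ℂ) (f : ℂ → ℂ) : tc k (fun z => c * f z) = c * tc k f := by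
  unfold tc
  rw [iteratedDeriv_const_mul_field]
  ring

theorem tc_add {k : ℕ} {f g : ℂ → ℂ} (hf : AnalyticAt ℂ f 0) (hg : AnalyticAt ℂ g 0) :
    tc k (fun z => f z + g z) = tc k f + tc k g := by
  unfold tc
  rw [iteratedDeriv_fun_add hf.contDiffAt hg.contDiffAt]
  ring

theorem tc_sum {ι : Type} {k : ℕ} (s : Finset ι) {f : ι → ℂ → ℂ}
    (hf : ∀ i ∈ s, AnalyticAt ℂ (f i) 0) :
    tc k (fun z => ∑ i ∈ s, f i z) = ∑ i ∈ s, tc k (f i) := by
  unfold tc
  rw [iteratedDeriv_fun_sum (fun i hi => (hf i hi).contDiffAt), Finset.sum_div]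

theorem tc_deriv (k : ℕ) (f : ℂ → ℂ) : tc k (deriv f) = (k + 1) * tc (k + 1) f := by
  unfold tc
  rw [iteratedDeriv_succ', Nat.factorial_succ]
  have := fac_ne k
  have h2 : ((k : ℂ) + 1) ≠ 0 := by exact_mod_cast Nat.succ_ne_zero k
  push_cast
  field_simp

theorem tc_zero (f : ℂ → ℂ) : tc 0 f = f 0 := by simp [tc]

theorem tc_one (f : ℂ → ℂ) : tc 1 f = deriv f 0 := by simp [tc, iteratedDeriv_one]

/-- coefficients of `z^n g(z)` -/
theorem tc_pow_mul {k n : ℕ} {g : ℂ → ℂ} (hg : AnalyticAt ℂ g 0) :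
    tc k (fun z => z ^ n * g z) = if n ≤ k then tc (k - n) g else 0 := by
  rw [tc_mul (by fun_prop) hg]
  simp only [tc_pow]
  split_ifs with h
  · rw [Finset.sum_eq_single n]
    · simp
    · intro b _ hb; simp [hb]
    · intro hn; exact absurd (Finset.mem_range.mpr (Nat.lt_succ_of_le h)) hn
  · refine Finset.sum_eq_zero fun i hi => ?_
    have : i ≠ n := by
      rintro rfl; exact h (Nat.lt_succ_iff.mp (Finset.mem_range.mp hi))
    simp [this]

/-- Cauchy formula -/
theorem tc_circle {k : ℕ} {f : ℂ → ℂ} {r : ℝ} (hr : 0 < r)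
    (hf : DifferentiableOn ℂ f (closedBall 0 r)) :
    tc k f = (2 * Real.pi * Complex.I)⁻¹ * circleIntegral (fun z => (1 / z ^ (k + 1)) * f z) 0 r := by
  have h := DifferentiableOn.circleIntegral_one_div_sub_center_pow_smul hr k hf
  simp only [sub_zero, smul_eq_mul] at h
  rw [h]
  unfold tc
  have h1 : (2 * Real.pi * Complex.I : ℂ) ≠ 0 := Complex.two_pi_I_ne_zero
  have h2 := fac_ne k
  field_simp

/-- derivative of the Taylor coefficients with respect to a parameter -/
theorem tc_hasDeriv {k : ℕ} {g g' : ℂ → ℂ → ℂ} {a : ℂ} {ρ r C : ℝ} (hρ : 0 < ρ) (hr : 0 < r)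
    (hg : ∀ b ∈ ball a ρ, DifferentiableOn ℂ (g b) (closedBall 0 r))
    (hg' : DifferentiableOn ℂ (g' a) (closedBall 0 r))
    (hd : ∀ b ∈ ball a ρ, ∀ z ∈ sphere (0 : ℂ) r, HasDerivAt (fun b => g b z) (g' b z) b)
    (hC : ∀ b ∈ ball a ρ, ∀ z ∈ sphere (0 : ℂ) r, ‖g' b z‖ ≤ C) :
    HasDerivAt (fun b => tc k (g b)) (tc k (g' a)) a := by
  have hmem : ball a ρ ∈ 𝓝 a := ball_mem_nhds a hρ
  have hcm : ∀ θ : ℝ, circleMap 0 r θ ∈ sphere (0 : ℂ) r := fun θ =>
    circleMap_mem_sphere 0 hr.le θ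
  have hcb : ∀ θ : ℝ, circleMap 0 r θ ∈ closedBall (0 : ℂ) r := fun θ =>
    sphere_subset_closedBall (hcm θ)
  have hne : ∀ θ : ℝ, circleMap 0 r θ ≠ 0 := fun θ => circleMap_ne_center hr.ne'
  have hcont : ∀ f : ℂ → ℂ, DifferentiableOn ℂ f (closedBall 0 r) →
      Continuous (fun θ : ℝ => deriv (circleMap 0 r) θ •
        ((1 / circleMap 0 r θ ^ (k + 1)) * f (circleMap 0 r θ))) := by
    intro f hf
    have h1 : Continuous fun θ : ℝ => f (circleMap 0 r θ) :=
      hf.continuousOn.comp_continuous (continuous_circleMap 0 r) hcb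
    have h2 : Continuous fun θ : ℝ => (1 / circleMap 0 r θ ^ (k + 1)) := by
      refine Continuous.div continuous_const ((continuous_circleMap 0 r).pow _) fun θ => ?_
      exact pow_ne_zero _ (hne θ)
    have h3 : Continuous (deriv (circleMap 0 r)) := by
      have : deriv (circleMap 0 r) = fun θ => circleMap 0 r θ * Complex.I := by
        funext θ; exact deriv_circleMap 0 r θ
      rw [this]
      exact (continuous_circleMap 0 r).mul continuous_const
    exact h3.smul (h2.mul h1)
  have key := (intervalIntegral.hasDerivAt_integral_of_dominated_loc_of_deriv_le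
    (μ := MeasureTheory.volume) (a := 0) (b := 2 * Real.pi)
    (F := fun b θ => deriv (circleMap 0 r) θ •
        ((1 / circleMap 0 r θ ^ (k + 1)) * g b (circleMap 0 r θ)))
    (F' := fun b θ => deriv (circleMap 0 r) θ •
        ((1 / circleMap 0 r θ ^ (k + 1)) * g' b (circleMap 0 r θ)))
    (x₀ := a) (s := ball a ρ) (bound := fun _ => r * (1 / r ^ (k + 1) * C)) hmem
    (by
      filter_upwards [hmem] with b hb
      exact (hcont _ (hg b hb)).aestronglyMeasurable)
    ((hcont _ (hg a (mem_ball_self hρ))).intervalIntegrable _ _)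
    (hcont _ hg').aestronglyMeasurable
    (by
      refine Filter.Eventually.of_forall fun θ _ b hb => ?_
      have h1 : ‖deriv (circleMap 0 r) θ‖ = r := by
        rw [deriv_circleMap]; simp [abs_of_pos hr]
      have h2 : ‖(1 / circleMap 0 r θ ^ (k + 1))‖ = 1 / r ^ (k + 1) := by
        rw [norm_div, norm_pow]; simp [abs_of_pos hr]
      rw [norm_smul, norm_mul, h1, h2]
      have h3 := hC b hb _ (hcm θ)
      have h4 : (0 : ℝ) ≤ 1 / r ^ (k + 1) := by positivity
      exact mul_le_mul_of_nonneg_left (mul_le_mul_of_nonneg_left h3 h4) hr.le)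
    intervalIntegrable_const
    (by
      refine Filter.Eventually.of_forall fun θ _ b hb => ?_
      exact ((hd b hb _ (hcm θ)).const_mul (1 / circleMap 0 r θ ^ (k + 1))).const_mul
        (deriv (circleMap 0 r) θ))).2
  have e1 : ∀ b ∈ ball a ρ, tc k (g b) = (2 * Real.pi * Complex.I)⁻¹ *
      ∫ θ in (0 : ℝ)..(2 * Real.pi), deriv (circleMap 0 r) θ •
        ((1 / circleMap 0 r θ ^ (k + 1)) * g b (circleMap 0 r θ)) := by
    intro b hb
    rw [tc_circle hr (hg b hb)]
    rfl
  have e2 : tc k (g' a) = (2 * Real.pi * Complex.I)⁻¹ *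
      ∫ θ in (0 : ℝ)..(2 * Real.pi), deriv (circleMap 0 r) θ •
        ((1 / circleMap 0 r θ ^ (k + 1)) * g' a (circleMap 0 r θ)) := by
    rw [tc_circle hr hg']
    rfl
  rw [e2]
  refine (key.const_mul _).congr_of_eventuallyEq ?_
  filter_upwards [hmem] with b hb
  exact e1 b hb

/-- powers of a germ vanishing at `0` -/
theorem tc_pow_zero {f : ℂ → ℂ} (hf : AnalyticAt ℂ f 0) (h0 : f 0 = 0) :
    ∀ n i : ℕ, i < n → tc i (fun z => f z ^ n) = 0 := by
  intro n
  induction n with
  | zero => intro i hi; exact absurd hi (Nat.not_lt_zero _)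
  | succ n ih =>
    intro i hi
    have e : (fun z => f z ^ (n + 1)) = fun z => f z ^ n * f z := by
      funext z; rw [pow_succ]
    rw [e, tc_mul (hf.fun_pow n) hf]
    refine Finset.sum_eq_zero fun l hl => ?_
    have hl' := Finset.mem_range.mp hl
    by_cases hln : l < n
    · rw [ih l hln, zero_mul]
    · have : i - l = 0 := by omega
      rw [this, tc_zero, h0, mul_zero]

/-- composition with a germ vanishing at `0` -/
theorem tc_comp {k : ℕ} {f g : ℂ → ℂ} (hf : AnalyticAt ℂ f 0) (hg : AnalyticAt ℂ g 0)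
    (g0 : g 0 = 0) :
    tc k (fun z => f (g z)) = ∑ j ∈ Finset.range (k + 1), tc j f * tc k (fun z => g z ^ j) := by
  obtain ⟨R, hR, hev⟩ := hf.exists_eventuallyEq_sum_add_pow_mul (k + 1)
  have hg0 : Tendsto g (𝓝 0) (𝓝 0) := by
    have := hg.continuousAt.tendsto
    rwa [g0] at this
  have hev2 := hg0.eventually hev
  have hR' : AnalyticAt ℂ (fun z => R (g z)) 0 := by
    have : AnalyticAt ℂ R (g 0) := by rw [g0]; exact hR
    exact this.comp hg
  have hev3 : ∀ᶠ z in 𝓝 (0 : ℂ), f (g z) =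
      (∑ j ∈ Finset.range (k + 1), tc j f * g z ^ j) + g z ^ (k + 1) * R (g z) := by
    filter_upwards [hev2] with z hz
    rw [hz]
    congr 1
    refine Finset.sum_congr rfl fun j _ => ?_
    unfold tc
    rw [smul_eq_mul]
    ring
  have hj : ∀ j : ℕ, AnalyticAt ℂ (fun z => tc j f * g z ^ j) 0 := fun j =>
    analyticAt_const.fun_mul (hg.fun_pow j)
  have hlast : AnalyticAt ℂ (fun z => g z ^ (k + 1) * R (g z)) 0 := (hg.fun_pow _).fun_mul hR'
  have hfirst : AnalyticAt ℂ (fun z => ∑ j ∈ Finset.range (k + 1), tc j f * g z ^ j) 0 :=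
    Finset.analyticAt_fun_sum _ fun j _ => hj j
  rw [tc_congr hev3, tc_add hfirst hlast, tc_sum _ (fun j _ => hj j),
    tc_mul (hg.fun_pow _) hR']
  have h0 : ∑ i ∈ Finset.range (k + 1), tc i (fun z => g z ^ (k + 1)) *
      tc (k - i) (fun z => R (g z)) = 0 := by
    refine Finset.sum_eq_zero fun i hi => ?_
    rw [tc_pow_zero hg g0 _ _ (Finset.mem_range.mp hi), zero_mul]
  rw [h0, add_zero]
  refine Finset.sum_congr rfl fun j _ => ?_
  exact tc_const_mul k (tc j f) (fun z => g z ^ j)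

theorem sumconv (d k : ℕ) (f : ℕ → ℂ) :
    ∑ m ∈ (Finset.range (d + 1)).filter (fun m => m ≤ k), f m =
      ∑ m ∈ Finset.range (k + 1), if m ≤ d then f m else 0 := by
  rw [← Finset.sum_filter]
  refine Finset.sum_congr ?_ fun _ _ => rfl
  ext m
  simp only [Finset.mem_filter, Finset.mem_range]
  omega

section main

variable {I : Inf} {a : ℂ} {η δ : ℝ} {ζ : ℂ → ℂ → ℂ}

theorem om_of_loc (h : I.Loc a η δ ζ) {b : ℂ} (hb : b ∈ ball a η) : b ∈ I.Om := by
  have h1 := (h.sol 0 (by simpa using h.δ_pos) b hb).1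
  have h2 : ζ b 0 = 0 := h.zero b hb
  simp only [h2] at h1
  intro h3
  apply h1
  unfold Inf.B
  refine Finset.sum_eq_zero fun m _ => ?_
  rcases Nat.eq_zero_or_pos m with rfl | hm
  · simp [h3]
  · simp [zero_pow hm.ne']

theorem contA (I : Inf) : Continuous fun q : ℂ × ℂ => I.A q.1 q.2 := by
  unfold Inf.A
  refine continuous_finsetSum _ fun m _ => ?_
  exact (continuous_snd.pow m).mul ((I.a m).continuous.comp continuous_fst)

theorem contB (I : Inf) : Continuous fun q : ℂ × ℂ => I.B q.1 q.2 := by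
  unfold Inf.B
  refine continuous_finsetSum _ fun m _ => ?_
  exact (continuous_snd.pow m).mul ((I.b m).continuous.comp continuous_fst)

theorem analA (I : Inf) (a z : ℂ) : AnalyticAt ℂ (fun z => I.A a z) z := by
  unfold Inf.A
  refine Finset.analyticAt_fun_sum _ fun m _ => ?_
  fun_prop

theorem analB (I : Inf) (a z : ℂ) : AnalyticAt ℂ (fun z => I.B a z) z := by
  unfold Inf.B
  refine Finset.analyticAt_fun_sum _ fun m _ => ?_
  fun_prop

theorem B_ne (h : I.Loc a η δ ζ) {z : ℂ} (hz : ‖z‖ < δ) : I.B a z ≠ 0 := by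
  have h1 := (h.sol z hz a (mem_ball_self h.η_pos)).1
  have h2 : ζ a z = z := h.init z hz
  simpa only [h2] using h1

theorem analF (h : I.Loc a η δ ζ) {z : ℂ} (hz : ‖z‖ < δ) :
    AnalyticAt ℂ (fun z => I.A a z / I.B a z) z :=
  (analA I a z).div (analB I a z) (B_ne h hz)

theorem anal_zeta (h : I.Loc a η δ ζ) {b : ℂ} (hb : b ∈ ball a η) : AnalyticAt ℂ (ζ b) 0 :=
  (h.diffz b hb).analyticAt (ball_mem_nhds 0 h.δ_pos)

/-- derivative at `b = a` of the coefficients of the powers of `ζ b` -/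
theorem c_hasDeriv (h : I.Loc a η δ ζ) (k j : ℕ) :
    HasDerivAt (fun b => tc k (fun z => ζ b z ^ j))
      (j * (if j ≤ k then tc (k - j) (fun z => I.A a z / I.B a z) else 0)) a := by
  have hη := h.η_pos
  have hδ := h.δ_pos
  set ρ := η / 2 with hρ
  set r := δ / 2 with hr
  have hρ0 : 0 < ρ := by positivity
  have hr0 : 0 < r := by positivity
  have hsub1 : closedBall a ρ ⊆ ball a η := closedBall_subset_ball (by rw [hρ]; linarith)
  have hsub2 : closedBall (0 : ℂ) r ⊆ ball (0 : ℂ) δ :=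
    closedBall_subset_ball (by rw [hr]; linarith)
  let g' : ℂ → ℂ → ℂ := fun b z => (j : ℂ) * ζ b z ^ (j - 1) *
    (ζ b z * I.A b (ζ b z) / I.B b (ζ b z))
  have hcont : ContinuousOn (fun q : ℂ × ℂ => g' q.1 q.2)
      (closedBall a ρ ×ˢ closedBall (0 : ℂ) r) := by
    have hz : ContinuousOn (fun q : ℂ × ℂ => ζ q.1 q.2)
        (closedBall a ρ ×ˢ closedBall (0 : ℂ) r) :=
      h.cont.mono (Set.prod_mono hsub1 hsub2)
    have hpair : ContinuousOn (fun q : ℂ × ℂ => (q.1, ζ q.1 q.2))
        (closedBall a ρ ×ˢ closedBall (0 : ℂ) r) := continuousOn_fst.prodMk hz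
    have hA := (contA I).comp_continuousOn hpair
    have hB := (contB I).comp_continuousOn hpair
    refine ((continuousOn_const.mul (hz.pow _))).mul ((hz.mul hA).div hB ?_)
    rintro ⟨b, z⟩ ⟨hb, hz'⟩
    exact (h.sol z (by simpa using hsub2 hz') b (hsub1 hb)).1
  have hcomp : IsCompact (closedBall a ρ ×ˢ closedBall (0 : ℂ) r) :=
    (isCompact_closedBall a ρ).prod (isCompact_closedBall 0 r)
  obtain ⟨C, hC⟩ := hcomp.exists_bound_of_continuousOn hcont
  have hg'a : ∀ z ∈ ball (0 : ℂ) δ, g' a z = (j : ℂ) * (z ^ j * (I.A a z / I.B a z)) := by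
    intro z hz
    have hz' : ‖z‖ < δ := by simpa using hz
    show (j : ℂ) * ζ a z ^ (j - 1) * (ζ a z * I.A a (ζ a z) / I.B a (ζ a z)) = _
    rw [h.init z hz']
    rcases Nat.eq_zero_or_pos j with rfl | hj
    · simp
    · obtain ⟨i, rfl⟩ : ∃ i, j = i + 1 := ⟨j - 1, by omega⟩
      rw [Nat.add_sub_cancel, pow_succ]
      ring
  have hdiff : DifferentiableOn ℂ (g' a) (closedBall 0 r) := by
    have h1 : DifferentiableOn ℂ (fun z => (j : ℂ) * (z ^ j * (I.A a z / I.B a z)))
        (closedBall 0 r) := by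
      intro z hz
      have hz' : ‖z‖ < δ := by simpa using hsub2 hz
      have := (analF h hz').differentiableAt
      exact ((differentiableAt_const _).mul ((differentiableAt_id.pow j).mul this)).differentiableWithinAt
    exact h1.congr fun z hz => hg'a z (hsub2 hz)
  have key := tc_hasDeriv (k := k) (g := fun b z => ζ b z ^ j) (g' := g') (a := a) (C := C)
    hρ0 hr0
    (fun b hb => ((h.diffz b (hsub1 (ball_subset_closedBall hb))).mono hsub2).pow j)
    hdiff
    (fun b hb z hz => by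
      have hz' : ‖z‖ < δ := by simpa using hsub2 (sphere_subset_closedBall hz)
      exact (h.sol z hz' b (hsub1 (ball_subset_closedBall hb))).2.pow j)
    (fun b hb z hz => hC (b, z) ⟨ball_subset_closedBall hb, sphere_subset_closedBall hz⟩)
  have e : tc k (g' a) = j * (if j ≤ k then tc (k - j) (fun z => I.A a z / I.B a z) else 0) := by
    rw [tc_congr (g := fun z => (j : ℂ) * (z ^ j * (I.A a z / I.B a z)))
      (by filter_upwards [ball_mem_nhds (0 : ℂ) hδ] with z hz using hg'a z hz), tc_const_mul,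
      tc_pow_mul (analF h (by simpa using hδ))]
  rw [← e]
  exact key

theorem c_at (h : I.Loc a η δ ζ) (k j : ℕ) :
    tc k (fun z => ζ a z ^ j) = if k = j then 1 else 0 := by
  rw [tc_congr (g := fun z => z ^ j), tc_pow]
  filter_upwards [ball_mem_nhds (0 : ℂ) h.δ_pos] with z hz
  rw [h.init z (by simpa using hz)]

/-- the triangular system -/
theorem triang {Y : ℂ → ℂ → ℂ} (hY : I.YFam Y) (h : I.Loc a η δ ζ)
    {b : ℂ} (hb : b ∈ ball a (η / 96)) (hT : I.Tr a b (ζ b)) (k : ℕ) :
    ∑ j ∈ Finset.range (k + 1), tc j (Y b) * tc k (fun z => ζ b z ^ j) =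
      ∑ m ∈ Finset.range (k + 1), ((m : ℂ) + 1) * tc (m + 1) (fun z => ζ b z ^ 1) *
        tc (k - m) (Y a) := by
  have hη := h.η_pos
  have hb' : b ∈ ball a η := ball_subset_ball (by linarith) hb
  have ha : a ∈ I.Om := om_of_loc h (mem_ball_self hη)
  have hbO : b ∈ I.Om := om_of_loc h hb'
  have hζ := anal_zeta h hb'
  rw [← tc_comp (hY b hbO).1 hζ (h.zero b hb')]
  rw [tc_congr ((hY a ha).2.2.2 b (ζ b) hT), tc_mul hζ.deriv (hY a ha).1]
  refine Finset.sum_congr rfl fun m _ => ?_
  rw [tc_deriv]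
  simp only [pow_one]

/-- derivative of the coefficients of `Y b` at `b = a` -/
theorem y_hasDeriv {Y : ℂ → ℂ → ℂ} (hY : I.YFam Y) (h : I.Loc a η δ ζ)
    (hT : ∀ b ∈ ball a (η / 96), I.Tr a b (ζ b)) (k : ℕ) :
    HasDerivAt (fun b => tc k (Y b))
      (∑ m ∈ Finset.range (k + 1), ((m : ℂ) + 1 - ((k - m : ℕ) : ℂ)) *
        tc m (fun z => I.A a z / I.B a z) * tc (k - m) (Y a)) a := by
  have hη := h.η_pos
  set Fc : ℕ → ℂ := fun m => tc m (fun z => I.A a z / I.B a z) with hFc
  set c : ℕ → ℕ → ℂ → ℂ := fun k j b => tc k (fun z => ζ b z ^ j) with hc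
  have hcd : ∀ k j, HasDerivAt (c k j) (j * (if j ≤ k then Fc (k - j) else 0)) a :=
    fun k j => c_hasDeriv h k j
  have hca : ∀ k j, c k j a = if k = j then 1 else 0 := fun k j => c_at h k j
  induction k using Nat.strong_induction_on with
  | _ k ih =>
    -- numerator
    let N : ℂ → ℂ := fun b => (∑ m ∈ Finset.range (k + 1), ((m : ℂ) + 1) * c (m + 1) 1 b *
        tc (k - m) (Y a)) - ∑ j ∈ Finset.range k, tc j (Y b) * c k j b
    have hN : HasDerivAt N ((∑ m ∈ Finset.range (k + 1), ((m : ℂ) + 1) * Fc m * tc (k - m) (Y a))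
        - ∑ j ∈ Finset.range k, tc j (Y a) * (j * Fc (k - j))) a := by
      refine HasDerivAt.sub ?_ ?_
      · refine HasDerivAt.fun_sum fun m _ => ?_
        have h1 := hcd (m + 1) 1
        have h2 : ((1 : ℕ) : ℂ) * (if 1 ≤ m + 1 then Fc (m + 1 - 1) else 0) = Fc m := by simp
        rw [h2] at h1
        exact (h1.const_mul _).mul_const _
      · refine HasDerivAt.fun_sum fun j hj => ?_
        have hjk : j < k := Finset.mem_range.mp hj
        have h1 := (ih j hjk).mul (hcd k j)
        have h2 : c k j a = 0 := by rw [hca]; simp [hjk.ne']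
        rw [h2, mul_zero, zero_add, if_pos hjk.le] at h1
        exact h1
    have hNa : N a = tc k (Y a) := by
      have h1 := triang hY h (mem_ball_self (by positivity)) (hT a (mem_ball_self (by positivity))) k
      rw [Finset.sum_range_succ] at h1
      have h2 : c k k a = 1 := by rw [hca]; simp
      have h3 : tc k (fun z => ζ a z ^ k) = 1 := h2
      show (∑ m ∈ Finset.range (k + 1), ((m : ℂ) + 1) * tc (m + 1) (fun z => ζ a z ^ 1) *
        tc (k - m) (Y a)) - ∑ j ∈ Finset.range k, tc j (Y a) * tc k (fun z => ζ a z ^ j) = _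
      rw [← h1, h3]
      ring
    have hck := hcd k k
    rw [if_pos le_rfl, Nat.sub_self] at hck
    have hcka : c k k a = 1 := by rw [hca]; simp
    have hne : ∀ᶠ b in 𝓝 a, c k k b ≠ 0 := by
      refine hck.continuousAt.eventually_ne ?_
      rw [hcka]; exact one_ne_zero
    have heq : (fun b => tc k (Y b)) =ᶠ[𝓝 a] fun b => N b / c k k b := by
      filter_upwards [hne, ball_mem_nhds a (show 0 < η / 96 by positivity)] with b hb1 hb2
      rw [eq_div_iff hb1]
      have h1 := triang hY h hb2 (hT b hb2) k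
      rw [Finset.sum_range_succ] at h1
      show tc k (Y b) * tc k (fun z => ζ b z ^ k) =
        (∑ m ∈ Finset.range (k + 1), ((m : ℂ) + 1) * tc (m + 1) (fun z => ζ b z ^ 1) *
        tc (k - m) (Y a)) - ∑ j ∈ Finset.range k, tc j (Y b) * tc k (fun z => ζ b z ^ j)
      rw [← h1]
      ring
    have hdiv := (hN.div hck (by rw [hcka]; exact one_ne_zero)).congr_of_eventuallyEq heq
    rw [hcka, hNa] at hdiv
    refine hdiv.congr_deriv (Eq.symm ?_)
    have e1 : ∑ m ∈ Finset.range (k + 1), ((m : ℂ) + 1 - ((k - m : ℕ) : ℂ)) *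
        tc m (fun z => I.A a z / I.B a z) * tc (k - m) (Y a) =
        (∑ m ∈ Finset.range (k + 1), ((m : ℂ) + 1) * Fc m * tc (k - m) (Y a)) -
        ∑ m ∈ Finset.range (k + 1), ((k - m : ℕ) : ℂ) * Fc m * tc (k - m) (Y a) := by
      rw [← Finset.sum_sub_distrib]
      refine Finset.sum_congr rfl fun m _ => ?_
      simp only [hFc]
      ring
    have e2 : ∑ m ∈ Finset.range (k + 1), ((k - m : ℕ) : ℂ) * Fc m * tc (k - m) (Y a) =
        ∑ j ∈ Finset.range (k + 1), (j : ℂ) * Fc (k - j) * tc j (Y a) := by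
      rw [← Finset.sum_range_reflect]
      refine Finset.sum_congr rfl fun j hj => ?_
      have hjk : j ≤ k := Nat.lt_succ_iff.mp (Finset.mem_range.mp hj)
      have : k - (k + 1 - 1 - j) = j := by omega
      rw [this]
      have : k + 1 - 1 - j = k - j := by omega
      rw [this]
    rw [e1, e2, Finset.sum_range_succ (fun j => (j : ℂ) * Fc (k - j) * tc j (Y a)), Nat.sub_self]
    have e3 : ∑ j ∈ Finset.range k, (j : ℂ) * Fc (k - j) * tc j (Y a) =
        ∑ j ∈ Finset.range k, tc j (Y a) * (j * Fc (k - j)) :=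
      Finset.sum_congr rfl fun j _ => by ring
    rw [e3]
    ring

end main

/-! ### the algebra -/

/-- `X d/dX` -/
noncomputable def th (f : PowerSeries ℂ) : PowerSeries ℂ :=
  PowerSeries.X * PowerSeries.derivative ℂ f

theorem coeff_th (k : ℕ) (f : PowerSeries ℂ) :
    PowerSeries.coeff k (th f) = k * PowerSeries.coeff k f := by
  unfold th
  cases k with
  | zero => simp
  | succ k =>
    rw [PowerSeries.coeff_succ_X_mul, PowerSeries.coeff_derivative]
    push_cast
    ring

theorem th_mul (f g : PowerSeries ℂ) : th (f * g) = th f * g + f * th g := by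
  unfold th
  rw [Derivation.leibniz]
  simp only [smul_eq_mul]
  ring

/-- the purely algebraic identity -/
theorem alg_id (pb pa pb' pF py : PowerSeries ℂ) (h : pb * pF = pa) :
    pb * (pb' * py + pb * (th pF * py - pF * th py)) + pa * th (pb * py) - th pa * (pb * py)
      - pb' * (pb * py) = 0 := by
  have h2 : th pb * pF + pb * th pF = th pa := by rw [← h, th_mul]
  rw [th_mul, ← h2, ← h]
  ring

theorem coeff_mul' (k : ℕ) (f g : PowerSeries ℂ) :
    PowerSeries.coeff k (f * g) = ∑ m ∈ Finset.range (k + 1),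
      PowerSeries.coeff m f * PowerSeries.coeff (k - m) g := by
  rw [PowerSeries.coeff_mul, Finset.Nat.sum_antidiagonal_eq_sum_range_succ_mk]

theorem tc_A (I : Inf) (a : ℂ) (k : ℕ) :
    tc k (fun z => I.A a z) = if k ≤ I.d then (I.a k).eval a else 0 := by
  have e : (fun z => I.A a z) = fun z => ∑ m ∈ Finset.range (I.d + 1), (I.a m).eval a * z ^ m := by
    funext z
    unfold Inf.A
    exact Finset.sum_congr rfl fun m _ => mul_comm _ _
  rw [e, tc_sum _ (fun m _ => by fun_prop)]
  simp only [tc_const_mul, tc_pow]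
  by_cases h : k ≤ I.d
  · rw [if_pos h, Finset.sum_eq_single k]
    · simp
    · intro b _ hb; simp [Ne.symm hb]
    · intro hk; exact absurd (Finset.mem_range.mpr (Nat.lt_succ_of_le h)) hk
  · rw [if_neg h]
    refine Finset.sum_eq_zero fun m hm => ?_
    have : k ≠ m := by
      rintro rfl; exact h (Nat.lt_succ_iff.mp (Finset.mem_range.mp hm))
    simp [this]

theorem tc_B (I : Inf) (a : ℂ) (k : ℕ) :
    tc k (fun z => I.B a z) = if k ≤ I.d then (I.b k).eval a else 0 := by
  have e : (fun z => I.B a z) = fun z => ∑ m ∈ Finset.range (I.d + 1), (I.b m).eval a * z ^ m := by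
    funext z
    unfold Inf.B
    exact Finset.sum_congr rfl fun m _ => mul_comm _ _
  rw [e, tc_sum _ (fun m _ => by fun_prop)]
  simp only [tc_const_mul, tc_pow]
  by_cases h : k ≤ I.d
  · rw [if_pos h, Finset.sum_eq_single k]
    · simp
    · intro b _ hb; simp [Ne.symm hb]
    · intro hk; exact absurd (Finset.mem_range.mpr (Nat.lt_succ_of_le h)) hk
  · rw [if_neg h]
    refine Finset.sum_eq_zero fun m hm => ?_
    have : k ≠ m := by
      rintro rfl; exact h (Nat.lt_succ_iff.mp (Finset.mem_range.mp hm))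
    simp [this]

/-- **F15** -/
theorem COEF (h3 : S_TR3) : S_COEF := by
  intro I Y hY
  let φ : ℕ → ℂ → ℂ := fun k b =>
    ∑ m ∈ (Finset.range (I.d + 1)).filter (fun m => m ≤ k), (I.b m).eval b * tc (k - m + 1) (Y b)
  -- derivatives
  have hder : ∀ a ∈ I.Om, ∃ (η δ : ℝ) (ζ : ℂ → ℂ → ℂ), I.Loc a η δ ζ ∧ ∀ k,
      HasDerivAt (φ k) (∑ m ∈ (Finset.range (I.d + 1)).filter (fun m => m ≤ k),
        ((Polynomial.derivative (I.b m)).eval a * tc (k - m + 1) (Y a) + (I.b m).eval a *
          (∑ i ∈ Finset.range (k - m + 1 + 1), ((i : ℂ) + 1 - ((k - m + 1 - i : ℕ) : ℂ)) *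
            tc i (fun z => I.A a z / I.B a z) * tc (k - m + 1 - i) (Y a)))) a := by
    intro a ha
    obtain ⟨η, δ, ζ, hL, hT⟩ := h3 I a ha
    refine ⟨η, δ, ζ, hL, fun k => ?_⟩
    refine HasDerivAt.fun_sum fun m _ => ?_
    exact ((I.b m).hasDerivAt a).mul (y_hasDeriv hY hL hT (k - m + 1))
  refine ⟨φ, ?_, ?_, ?_⟩
  · intro k a ha
    obtain ⟨η, δ, ζ, hL, hd⟩ := hder a ha
    exact (hd k).differentiableAt.differentiableWithinAt
  · intro a ha
    have e : (Finset.range (I.d + 1)).filter (fun m => m ≤ 0) = {0} := by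
      ext m
      simp only [Finset.mem_filter, Finset.mem_range, Finset.mem_singleton]
      omega
    show ∑ m ∈ (Finset.range (I.d + 1)).filter (fun m => m ≤ 0),
      (I.b m).eval a * tc (0 - m + 1) (Y a) = _
    rw [e, Finset.sum_singleton]
    simp only [Nat.sub_self, zero_add]
    rw [tc_one, (hY a ha).2.2.1, mul_one]
  · intro k a ha
    obtain ⟨η, δ, ζ, hL, hd⟩ := hder a ha
    set Fc : ℕ → ℂ := fun m => tc m (fun z => I.A a z / I.B a z) with hFc
    let pb : PowerSeries ℂ := PowerSeries.mk fun m => if m ≤ I.d then (I.b m).eval a else 0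
    let pa : PowerSeries ℂ := PowerSeries.mk fun m => if m ≤ I.d then (I.a m).eval a else 0
    let pb' : PowerSeries ℂ := PowerSeries.mk fun m =>
      if m ≤ I.d then (Polynomial.derivative (I.b m)).eval a else 0
    let pF : PowerSeries ℂ := PowerSeries.mk Fc
    let py : PowerSeries ℂ := PowerSeries.mk fun n => tc (n + 1) (Y a)
    have hBF : pb * pF = pa := by
      ext n
      rw [coeff_mul']
      simp only [pb, pF, pa, PowerSeries.coeff_mk]
      have h1 : tc n (fun z => I.B a z * (I.A a z / I.B a z)) = tc n (fun z => I.A a z) := by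
        refine tc_congr ?_
        filter_upwards [ball_mem_nhds (0 : ℂ) hL.δ_pos] with z hz
        exact mul_div_cancel₀ _ (B_ne hL (by simpa using hz))
      rw [tc_mul (analB I a 0) (analF hL (by simpa using hL.δ_pos)), tc_A] at h1
      rw [← h1]
      refine Finset.sum_congr rfl fun i _ => ?_
      rw [tc_B]
    have hφ : ∀ n, PowerSeries.coeff n (pb * py) = φ n a := by
      intro n
      rw [coeff_mul']
      show _ = ∑ m ∈ (Finset.range (I.d + 1)).filter (fun m => m ≤ n),
        (I.b m).eval a * tc (n - m + 1) (Y a)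
      rw [sumconv]
      refine Finset.sum_congr rfl fun m _ => ?_
      simp only [pb, py, PowerSeries.coeff_mk]
      split_ifs <;> simp
    have hdy : ∀ n, PowerSeries.coeff n (th pF * py - pF * th py) =
        ∑ i ∈ Finset.range (n + 1 + 1), ((i : ℂ) + 1 - ((n + 1 - i : ℕ) : ℂ)) *
            Fc i * tc (n + 1 - i) (Y a) := by
      intro n
      rw [map_sub, coeff_mul', coeff_mul', ← Finset.sum_sub_distrib, Finset.sum_range_succ
        (n := n + 1)]
      have h0 : tc (n + 1 - (n + 1)) (Y a) = 0 := by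
        rw [Nat.sub_self, tc_zero, (hY a ha).2.1]
      rw [h0, mul_zero, add_zero]
      refine Finset.sum_congr rfl fun i hi => ?_
      have hin : i ≤ n := Nat.lt_succ_iff.mp (Finset.mem_range.mp hi)
      have e1 : n + 1 - i = n - i + 1 := by omega
      rw [coeff_th, coeff_th, e1]
      simp only [pF, py, PowerSeries.coeff_mk]
      push_cast
      ring
    have hφ' : ∀ n, PowerSeries.coeff n (pb' * py + pb * (th pF * py - pF * th py)) =
        deriv (φ n) a := by
      intro n
      rw [(hd n).deriv, sumconv, map_add, coeff_mul', coeff_mul', ← Finset.sum_add_distrib]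
      refine Finset.sum_congr rfl fun m _ => ?_
      rw [hdy]
      simp only [pb, pb', py, PowerSeries.coeff_mk]
      split_ifs
      · rfl
      · simp
    have key := congrArg (PowerSeries.coeff k) (alg_id pb pa pb' pF py hBF)
    rw [map_sub, map_sub, map_add, coeff_mul', coeff_mul', coeff_mul', coeff_mul',
      map_zero, ← Finset.sum_add_distrib, ← Finset.sum_sub_distrib, ← Finset.sum_sub_distrib] at key
    rw [sumconv]
    refine Eq.trans ?_ key
    refine Finset.sum_congr rfl fun m hm => ?_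
    have hmk : m ≤ k := Nat.lt_succ_iff.mp (Finset.mem_range.mp hm)
    rw [hφ', coeff_th, coeff_th, hφ]
    simp only [pb, pa, pb', PowerSeries.coeff_mk]
    rw [Nat.cast_sub hmk]
    split_ifs
    · ring
    · simp

end Pool.GL.H74
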